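import Pool.Agent.U514.TG.Stm

namespace Pool.Agent.U894.TG

open Pool.Agent.U514.TG

lemma first_factor (l : ℕ) (N : ℝ) (hN0 : 0 < N) (hN : N < ((2:ℝ)^40)^(l+1)) :
    ((14745600:ℝ) / 2^24)^l ≤ 2 * N ^ (-(0.004:ℝ)) := by
  have h1 : (0:ℝ) ≤ ((14745600:ℝ) / 2^24)^l := by positivity
  have h2 : (0:ℝ) ≤ 2 * N ^ (-(0.004:ℝ)) := by positivity
  rw [← pow_le_pow_iff_left₀ h1 h2 (n := 250) (by norm_num)]
  have e1 : (((14745600:ℝ) / 2^24)^l)^250 = ((((14745600:ℝ) / 2^24)^25)^10)^l := by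
    rw [← pow_mul, ← pow_mul, ← pow_mul]; congr 1; ring
  have e2 : (2 * N ^ (-(0.004:ℝ)))^250 = 2^250 * N⁻¹ := by
    have e3 : (N ^ (-(0.004:ℝ)))^250 = N⁻¹ := by
      rw [← Real.rpow_natCast, ← Real.rpow_mul hN0.le, ← Real.rpow_neg_one]
      congr 1; norm_num
    rw [mul_pow, e3]
  rw [e1, e2]
  have h3 : ((14745600:ℝ) / 2^24)^25 ≤ 1/2^4 := by norm_num
  have h4 : ((((14745600:ℝ) / 2^24)^25)^10)^l ≤ ((1/2^4)^10)^l := by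
    gcongr
  refine h4.trans ?_
  have h5 : (((2:ℝ)^40)^(l+1))⁻¹ ≤ N⁻¹ := inv_anti₀ hN0 hN.le
  have h6 : (((1:ℝ)/2^4)^10)^l = 2^40 * (((2:ℝ)^40)^(l+1))⁻¹ := by
    have hq : ((1:ℝ)/2^4)^10 = ((2:ℝ)^40)⁻¹ := by norm_num
    rw [hq, inv_pow, pow_succ ((2:ℝ)^40) l]
    field_simp
  rw [h6]
  have h7 : (0:ℝ) ≤ N⁻¹ := by positivity
  calc (2:ℝ)^40 * (((2:ℝ)^40)^(l+1))⁻¹ ≤ 2^40 * N⁻¹ := by gcongr
    _ ≤ 2^250 * N⁻¹ := by gcongr <;> norm_num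

lemma second_factor (l : ℕ) (N : ℝ) (hN0 : 0 < N) (hN : ((2:ℝ)^40)^l ≤ N) :
    ((8585216:ℝ) * 2^16)^l ≤ N ^ (0.98:ℝ) := by
  have h1 : (0:ℝ) ≤ ((8585216:ℝ) * 2^16)^l := by positivity
  have h2 : (0:ℝ) ≤ N ^ (0.98:ℝ) := by positivity
  rw [← pow_le_pow_iff_left₀ h1 h2 (n := 50) (by norm_num)]
  have e1 : (((8585216:ℝ) * 2^16)^l)^50 = ((((8585216:ℝ) * 2^16)^5)^10)^l := by
    rw [← pow_mul, ← pow_mul, ← pow_mul]; congr 1; ring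
  have e2 : (N ^ (0.98:ℝ))^50 = N^49 := by
    rw [← Real.rpow_natCast, ← Real.rpow_mul hN0.le, ← Real.rpow_natCast]
    congr 1; norm_num
  rw [e1, e2]
  have h3 : ((8585216:ℝ) * 2^16)^5 ≤ 2^196 := by norm_num
  calc ((((8585216:ℝ) * 2^16)^5)^10)^l ≤ (((2:ℝ)^196)^10)^l := by gcongr
    _ = (((2:ℝ)^40)^l)^49 := by rw [← pow_mul, ← pow_mul, ← pow_mul, ← pow_mul]; congr 1; ring
    _ ≤ N^49 := by gcongr

theorem t_ASYX : S_ASYX := by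
  intro A hA
  refine ⟨A * 20, ?_⟩
  intro cost h0 h n
  rcases Nat.eq_zero_or_pos n with rfl | hn
  · rw [h0]
    have : (0:ℝ) ^ (2.996:ℝ) = 0 := Real.zero_rpow (by norm_num)
    simp [this]
  set l := Nat.log (2^40) n with hl
  have hlo : (2^40)^l ≤ n := Nat.pow_log_le_self _ hn.ne'
  have hhi : n < (2^40)^(l+1) := Nat.lt_pow_succ_log_self (by norm_num) n
  have h1 := h l (n / 4096^l + 1) n (Nat.succ_pos _) (by
    have := Nat.lt_mul_div_succ n (b := 4096^l) (by positivity)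
    exact this.le)
  set s := n / 4096^l + 1 with hs
  have hN1 : (1:ℝ) ≤ (n:ℝ) := by exact_mod_cast hn
  have hN0 : (0:ℝ) < (n:ℝ) := by linarith
  have hloR : ((2:ℝ)^40)^l ≤ (n:ℝ) := by exact_mod_cast hlo
  have hhiR : (n:ℝ) < ((2:ℝ)^40)^(l+1) := by exact_mod_cast hhi
  have hsR : (s:ℝ) * 4096^l ≤ 2 * n := by
    have h2 : (n / 4096^l) * 4096^l ≤ n := Nat.div_mul_le_self _ _
    have h3 : 4096^l ≤ n := le_trans (Nat.pow_le_pow_left (by norm_num) l) hlo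
    have h4 : s * 4096^l ≤ 2 * n := by
      rw [hs, Nat.add_mul, one_mul]; omega
    exact_mod_cast h4
  have hs0 : (0:ℝ) ≤ s := by positivity
  have f1 := first_factor l n hN0 hhiR
  have f2 := second_factor l n hN0 hloR
  have t1 : ((16:ℝ)^l * s)^3 * 14745600^l ≤ 16 * (n:ℝ)^(2.996:ℝ) := by
    have e : ((16:ℝ)^l * s)^3 * 14745600^l = ((s:ℝ) * 4096^l)^3 * ((14745600:ℝ)/2^24)^l := by
      have e1 : ((4096:ℝ)^l)^3 = ((16:ℝ)^l)^3 * ((2:ℝ)^24)^l := by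
        rw [← pow_mul, ← pow_mul, mul_comm l 3, pow_mul, pow_mul, ← mul_pow]; norm_num
      rw [div_pow, mul_pow, mul_pow, e1]
      field_simp
    rw [e]
    have e3 : (n:ℝ)^(2.996:ℝ) = (n:ℝ)^3 * (n:ℝ)^(-(0.004:ℝ)) := by
      rw [← Real.rpow_natCast, ← Real.rpow_add hN0]; congr 1; norm_num
    rw [e3]
    calc ((s:ℝ) * 4096^l)^3 * ((14745600:ℝ)/2^24)^l
        ≤ (2 * (n:ℝ))^3 * (2 * (n:ℝ) ^ (-(0.004:ℝ))) := by gcongr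
      _ = 16 * ((n:ℝ)^3 * (n:ℝ)^(-(0.004:ℝ))) := by ring
  have t2 : (s:ℝ)^2 * (8585216 * 2^40)^l ≤ 4 * (n:ℝ)^(2.996:ℝ) := by
    have e : (s:ℝ)^2 * (8585216 * 2^40)^l = ((s:ℝ) * 4096^l)^2 * ((8585216:ℝ) * 2^16)^l := by
      have e1 : ((8585216:ℝ) * 2^40)^l = ((4096:ℝ)^l)^2 * ((8585216:ℝ) * 2^16)^l := by
        rw [← pow_mul, mul_comm l 2, pow_mul, ← mul_pow]; norm_num
      rw [e1]; ring
    rw [e]
    calc ((s:ℝ) * 4096^l)^2 * ((8585216:ℝ) * 2^16)^l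
        ≤ (2 * (n:ℝ))^2 * (n:ℝ)^(0.98:ℝ) := by gcongr
      _ = 4 * (n:ℝ)^(2.98:ℝ) := by
        have e4 : (n:ℝ)^(2.98:ℝ) = (n:ℝ)^2 * (n:ℝ)^(0.98:ℝ) := by
          rw [← Real.rpow_natCast, ← Real.rpow_add hN0]; congr 1; norm_num
        rw [e4]; ring
      _ ≤ 4 * (n:ℝ)^(2.996:ℝ) := by
        gcongr 4 * ?_
        exact Real.rpow_le_rpow_of_exponent_le hN1 (by norm_num)
  calc (cost n : ℝ) ≤ A * (((16 : ℝ) ^ l * s) ^ 3 * 14745600 ^ l +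
        (s : ℝ) ^ 2 * (8585216 * 2 ^ 40) ^ l) := h1
    _ ≤ A * (16 * (n:ℝ)^(2.996:ℝ) + 4 * (n:ℝ)^(2.996:ℝ)) := by gcongr
    _ = A * 20 * (n:ℝ)^(2.996:ℝ) := by ring

end Pool.Agent.U894.TG
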